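import Pool.Agent.Q22.DigitHankel

/-!
# Hankel determinants of the binary sum of digits are 2-automatic modulo every power of two

More generally they are 2-automatic modulo every positive integer.
-/

namespace Pool.Agent.Results.MP_47b218_nt.TwoAutomatic

open Matrix Pool.Agent.Q22.DigitHankel

/-- The number of ones in the binary expansion of `m`. -/
def digitSum (m : ℕ) : ℤ := ((Nat.digits 2 m).sum : ℕ)

/-- The `n × n` Hankel determinant of the binary sum of digits. -/
def hankelDet (n : ℕ) : ℤ := Matrix.det (Matrix.of fun i j : Fin n => digitSum ((i : ℕ) + (j : ℕ)))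

/-- The 2-kernel of a sequence is finite. -/
def FiniteKernel (a : ℕ → ℤ) : Prop :=
  {b : ℕ → ℤ | ∃ e r : ℕ, r < 2 ^ e ∧ b = fun n => a (2 ^ e * n + r)}.Finite

/-- A deterministic finite automaton with output, reading the binary expansion of `n` (without
leading zeros, most significant digit first), outputs `a n`. -/
def GeneratedByAutomaton (a : ℕ → ℤ) : Prop :=
  ∃ (Q : Type) (_ : Finite Q) (step : Q → Bool → Q) (start : Q) (out : Q → ℤ),
    ∀ n : ℕ, out (n.bits.reverse.foldl step start) = a n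

set_option linter.unusedSectionVars false

section General

variable {Q : Type} [Finite Q] (q : ℕ → Q) (F : Bool → Q → Q)
  (hq : ∀ (b : Bool) (n : ℕ), q (Nat.bit b n) = F b (q n)) (out : Q → ℤ)

include hq

lemma foldl_eq (n : ℕ) : n.bits.reverse.foldl (fun x b => F b x) (q 0) = q n := by
  induction n using Nat.binaryRec' with
  | zero => simp
  | bit b n hn ih =>
    rw [Nat.bits_append_bit n b hn, List.reverse_cons, List.foldl_append, ih]
    simp [hq]

lemma kernel_aux (e : ℕ) : ∀ r < 2 ^ e, ∃ G : Q → Q, ∀ n, q (2 ^ e * n + r) = G (q n) := by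
  induction e with
  | zero =>
    intro r hr
    have : r = 0 := by simpa using hr
    subst this
    exact ⟨id, fun n => by simp⟩
  | succ e ih =>
    intro r hr
    obtain ⟨G, hG⟩ := ih (r / 2) (by rw [pow_succ] at hr; omega)
    refine ⟨fun x => F (r.bodd) (G x), fun n => ?_⟩
    change q (2 ^ (e + 1) * n + r) = F r.bodd (G (q n))
    rw [← hG, ← hq]
    congr 1
    have h := Nat.bodd_add_div2 r
    rw [Nat.div2_val] at h
    rw [Nat.bit_val, pow_succ]
    rcases hb : r.bodd <;> rw [hb] at h <;> simp at h ⊢ <;> nlinarith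

lemma automatic : FiniteKernel (fun n => out (q n)) ∧ GeneratedByAutomaton (fun n => out (q n)) := by
  refine ⟨?_, Q, inferInstance, fun x b => F b x, q 0, out, fun n => ?_⟩
  · refine (Set.finite_range (fun G : Q → Q => fun n => out (G (q n)))).subset ?_
    rintro b ⟨e, r, hr, rfl⟩
    obtain ⟨G, hG⟩ := kernel_aux q F hq e r hr
    exact ⟨G, by funext n; simp [hG]⟩
  · simp only [foldl_eq q F hq]

end General

lemma digitSum_even (k : ℕ) : digitSum (2 * k) = 1 * digitSum k := by
  rcases Nat.eq_zero_or_pos k with h | h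
  · subst h; simp
  · unfold digitSum
    rw [Nat.digits_def' (by norm_num) (by omega)]
    simp

lemma digitSum_odd (k : ℕ) : digitSum (2 * k + 1) = 1 * digitSum k + 1 := by
  unfold digitSum
  rw [Nat.digits_def' (by norm_num) (by omega), show (2 * k + 1) % 2 = 1 by omega,
    show (2 * k + 1) / 2 = k by omega]
  push_cast [List.sum_cons]
  ring

/-- Hankel determinants of `s`, first and second differences, and the coefficients of the
perturbation by the all ones matrix. -/
noncomputable def A (n : ℕ) : ℤ := (hr digitSum n n).det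
@[inherit_doc A] noncomputable def B (n : ℕ) : ℤ := al (hr digitSum n n)
@[inherit_doc A] noncomputable def C (n : ℕ) : ℤ := (hr (dd digitSum) n n).det
@[inherit_doc A] noncomputable def D (n : ℕ) : ℤ := al (hr (dd digitSum) n n)
@[inherit_doc A] noncomputable def E (n : ℕ) : ℤ := (hr (d2 digitSum) n n).det

lemma det_QQ_one (n : ℕ) : (QQ digitSum 1 n).det = C n - 2 * D n := by
  rw [det_QQ, one_smul, C, D]

lemma rec_AB {m n : ℕ} (hm : n ≤ m) (hn : m ≤ n + 1) :
    A (m + n) = A m * (C n - 2 * D n) - B m * D n ∧ B (m + n) = B m * (C n - 2 * D n) := by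
  refine al_unique (hr digitSum (m + n) (m + n)) fun x => ?_
  rw [rec_s digitSum_even digitSum_odd hm hn x, one_smul, one_smul, det_QQ_one]
  rfl

lemma rec_E {m n : ℕ} (hm : n ≤ m) (hn : m ≤ n + 1) :
    E (m + n) = (C m - 2 * D m) * E n := by
  rw [E, rec_d2 digitSum_even digitSum_odd hm hn, det_QQ_one, one_pow, one_mul]
  rfl

lemma rec_CD_even (n : ℕ) : C (n + n) = (-1) ^ n * ((C n - 2 * D n) * C n) ∧
    D (n + n) = (-1) ^ n * (2 * (C n - 2 * D n) * D n) := by
  refine al_unique (hr (dd digitSum) (n + n) (n + n)) fun x => ?_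
  rw [rec_dd_even digitSum_even digitSum_odd n x, one_smul, det_QQ_one]
  rfl

lemma rec_CD_odd (n : ℕ) : C (n + 1 + n) = (-1) ^ n * E n ^ 2 ∧
    D (n + 1 + n) = (-1) ^ n * E n ^ 2 := by
  refine al_unique (hr (dd digitSum) (n + 1 + n) (n + 1 + n)) fun x => ?_
  rw [rec_dd_odd digitSum_even digitSum_odd n x, one_pow, one_mul]
  rfl

/-- The integer state. -/
noncomputable def vec (n : ℕ) : Fin 11 → ℤ :=
  ![A n, A (n + 1), B n, B (n + 1), C n, C (n + 1), D n, D (n + 1), E n, E (n + 1), (-1) ^ n]

/-- The transition from `n` to `2 n` and `2 n + 1`. -/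
def trans {R : Type*} [CommRing R] (b : Bool) (v : Fin 11 → R) : Fin 11 → R :=
  if b then
    ![v 1 * (v 4 - 2 * v 6) - v 3 * v 6, v 1 * (v 5 - 2 * v 7) - v 3 * v 7,
      v 3 * (v 4 - 2 * v 6), v 3 * (v 5 - 2 * v 7),
      v 10 * v 8 ^ 2, - v 10 * ((v 5 - 2 * v 7) * v 5),
      v 10 * v 8 ^ 2, - v 10 * (2 * (v 5 - 2 * v 7) * v 7),
      (v 5 - 2 * v 7) * v 8, (v 5 - 2 * v 7) * v 9, -1]
  else
    ![v 0 * (v 4 - 2 * v 6) - v 2 * v 6, v 1 * (v 4 - 2 * v 6) - v 3 * v 6,
      v 2 * (v 4 - 2 * v 6), v 3 * (v 4 - 2 * v 6),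
      v 10 * ((v 4 - 2 * v 6) * v 4), v 10 * v 8 ^ 2,
      v 10 * (2 * (v 4 - 2 * v 6) * v 6), v 10 * v 8 ^ 2,
      (v 4 - 2 * v 6) * v 8, (v 5 - 2 * v 7) * v 8, 1]

lemma vec_bit (b : Bool) (n : ℕ) : vec (Nat.bit b n) = trans b (vec n) := by
  have h1 := rec_AB (le_refl n) (Nat.le_succ n)
  have h2 := rec_AB (Nat.le_succ n) (le_refl (n + 1))
  have h3 := rec_AB (le_refl (n + 1)) (Nat.le_succ (n + 1))
  have h4 := rec_E (le_refl n) (Nat.le_succ n)
  have h5 := rec_E (Nat.le_succ n) (le_refl (n + 1))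
  have h6 := rec_E (le_refl (n + 1)) (Nat.le_succ (n + 1))
  have h7 := rec_CD_even n
  have h8 := rec_CD_odd n
  have h9 := rec_CD_even (n + 1)
  cases b
  · have e0 : Nat.bit false n = n + n := by simp [Nat.bit_val, two_mul]
    have e1 : n + n + 1 = n + 1 + n := by ring
    have e2 : ((-1 : ℤ)) ^ (n + n) = 1 := by rw [← two_mul, pow_mul]; simp
    simp only [vec, trans, e0, e1, e2, h1, h2, h4, h5, h7, h8, Bool.false_eq_true, if_false]
    ext i
    fin_cases i <;> simp
  · have e0 : Nat.bit true n = n + 1 + n := by simp [Nat.bit_val, two_mul]; ring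
    have e1 : n + 1 + n + 1 = n + 1 + (n + 1) := by ring
    have e2 : ((-1 : ℤ)) ^ (n + 1 + n) = -1 := by
      rw [show n + 1 + n = 2 * n + 1 by ring, pow_succ, pow_mul]; simp
    have e3 : ((-1 : ℤ)) ^ (n + 1) = - (-1) ^ n := by rw [pow_succ]; ring
    simp only [Nat.succ_eq_add_one] at *
    simp only [vec, trans, e0, e1, e2, h2, h3, h5, h6, h8, h9, e3, if_true]
    ext i
    fin_cases i <;> simp

/-- **Theorem.** For every positive integer `M` (in particular for every power of two) the
sequence `n ↦ H(n + 1) mod M` has a finite 2-kernel and is generated by a deterministic finite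
automaton with output that reads the binary expansion of `n`. -/
theorem result (M : ℕ) (hM : 1 ≤ M) :
    FiniteKernel (fun n => hankelDet (n + 1) % (M : ℤ)) ∧
      GeneratedByAutomaton (fun n => hankelDet (n + 1) % (M : ℤ)) := by
  have : NeZero M := ⟨by omega⟩
  have key := automatic (Q := Fin 11 → ZMod M) (fun n i => ((vec n i : ℤ) : ZMod M))
    (fun b v => trans b v) ?_ (fun v => ((v 1).val : ℤ))
  · have e : (fun n => hankelDet (n + 1) % (M : ℤ)) =
        fun n => (((((vec n 1 : ℤ) : ZMod M)).val : ℕ) : ℤ) := by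
      funext n
      rw [ZMod.val_intCast]
      rfl
    rw [e]
    exact key
  · intro b n
    funext i
    rw [vec_bit]
    cases b <;> fin_cases i <;> simp [trans]

end Pool.Agent.Results.MP_47b218_nt.TwoAutomatic
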